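import Pool.Agent.W601.RP.Stm2

/-!
Project RP: the continuous characters of the dual are the evaluations.
-/

set_option autoImplicit false
open scoped Classical
open Filter Topology Uniformity

namespace Pool.Agent.W551.RP

open Pool.Agent.W601.RP

/-- basic neighbourhoods of the trivial character -/
theorem nbd0 (A : Type) [Monoid A] [TopologicalSpace A] (V : Set (A →ₜ* Circle))
    (hV : V ∈ 𝓝 (1 : A →ₜ* Circle)) :
    ∃ K : Set A, IsCompact K ∧ ∃ δ : ℝ, 0 < δ ∧ ∀ c : A →ₜ* Circle,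
      (∀ g ∈ K, dist (c g) 1 < δ) → c ∈ V := by
  rw [(ContinuousMonoidHom.isInducing_toContinuousMap A Circle).nhds_eq_comap 1, mem_comap] at hV
  obtain ⟨W, hW, hWV⟩ := hV
  have hb := nhds_basis_uniformity'
    (ContinuousMap.hasBasis_compactConvergenceUniformity (α := A) (β := Circle))
    (x := ContinuousMonoidHom.toContinuousMap (1 : A →ₜ* Circle))
  rw [hb.mem_iff] at hW
  obtain ⟨⟨K, S⟩, ⟨hK, hS⟩, hKS⟩ := hW
  obtain ⟨δ, hδ, hδS⟩ := Metric.mem_uniformity_dist.mp hS
  refine ⟨K, hK, δ, hδ, ?_⟩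
  intro c hc
  apply hWV
  apply hKS
  intro g hg
  apply hδS
  rw [dist_comm]
  exact hc g hg

/-- basic neighbourhoods of the trivial character -/
theorem nbd (A : Type) [Monoid A] [TopologicalSpace A] (V : Set (PontryaginDual A))
    (hV : V ∈ 𝓝 (1 : PontryaginDual A)) :
    ∃ K : Set A, IsCompact K ∧ ∃ δ : ℝ, 0 < δ ∧ ∀ c : PontryaginDual A,
      (∀ g ∈ K, dist (c g) 1 < δ) → c ∈ V := nbd0 A V hV

theorem dd : S_CH → S_CPT → S_BIDU → S_GS → S_RED → S_DD := by
  intro hCH hCPT hBID hGS hRED Ψ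
  obtain ⟨hch1, hch2⟩ := hCH
  choose ev hev using hch2
  have hext : ∀ (c d : PontryaginDual (Multiplicative ↥GS)),
      (∀ g : ↥GS, c (Multiplicative.ofAdd g) = d (Multiplicative.ofAdd g)) → c = d := by
    intro c d h
    apply PontryaginDual.ext
    intro a
    exact h (Multiplicative.toAdd a)
  have hadd : ∀ (g : ↥GS) (h h' : ↥H), (g : ↥H → TT) (h + h') = (g : ↥H → TT) h + (g : ↥H → TT) h' := by
    intro g h h'
    obtain ⟨k, _, hk⟩ := hGS.1 g
    rw [hk]
    exact hRED.2.2.1 k h h'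
  have hevadd : ∀ h h' : ↥H, ev (h + h') = ev h * ev h' := by
    intro h h'
    apply hext
    intro g
    rw [hev, hadd, AddCircle.toCircle_add, ← hev, ← hev]
    rfl
  -- the homomorphism
  let e : TT ≃ₜ Circle := AddCircle.homeomorphCircle one_ne_zero
  have he : ∀ y : TT, e y = AddCircle.toCircle y := fun y => AddCircle.homeomorphCircle_apply _ y
  have headd : ∀ z w : Circle, e.symm (z * w) = e.symm z + e.symm w := by
    intro z w
    apply e.injective
    rw [e.apply_symm_apply, he, AddCircle.toCircle_add, ← he, ← he, e.apply_symm_apply,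
      e.apply_symm_apply]
  let χ : ↥H →+ TT := AddMonoidHom.mk' (fun h => e.symm (Ψ (ev h))) (by
    intro h h'
    show e.symm (Ψ (ev (h + h'))) = e.symm (Ψ (ev h)) + e.symm (Ψ (ev h'))
    rw [hevadd, map_mul, headd])
  have hχ : ∀ h, AddCircle.toCircle (χ h) = Ψ (ev h) := by
    intro h
    rw [← he]
    exact e.apply_symm_apply _
  -- continuity
  have hO : IsOpen {z : Circle | ‖e.symm z‖ < 1 / 4} :=
    isOpen_lt (e.symm.continuous.norm) continuous_const
  have hV : {c : PontryaginDual (Multiplicative ↥GS) | ‖e.symm (Ψ c)‖ < 1 / 4} ∈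
      𝓝 (1 : PontryaginDual (Multiplicative ↥GS)) := by
    have hc : Continuous (fun c : PontryaginDual (Multiplicative ↥GS) => Ψ c) := map_continuous Ψ
    apply (hO.preimage hc).mem_nhds
    show ‖e.symm (Ψ 1)‖ < 1 / 4
    rw [map_one]
    have : e.symm 1 = 0 := by
      apply e.injective
      rw [e.apply_symm_apply, he, AddCircle.toCircle_zero]
    rw [this, norm_zero]
    norm_num
  obtain ⟨K, hK, δ, hδ, hKδ⟩ := nbd _ _ hV
  have hcont : ContinuousAt (AddCircle.toCircle : TT → Circle) 0 :=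
    AddCircle.continuous_toCircle.continuousAt
  obtain ⟨ε, hε, hεδ⟩ := Metric.continuousAt_iff.mp hcont δ hδ
  have hεδ' : ∀ y : TT, ‖y‖ < ε → dist (AddCircle.toCircle y) 1 < δ := by
    intro y hy
    have := hεδ (x := y) (by rwa [dist_zero_right])
    rwa [AddCircle.toCircle_zero] at this
  have hsmall : ∀ h : ↥H, (∀ g : ↥GS, Multiplicative.ofAdd g ∈ K → ‖(g : ↥H → TT) h‖ < ε) →
      ‖χ h‖ < 1 / 4 := by
    intro h hh
    apply hKδ (ev h)
    intro a ha
    have h1 := hev h (Multiplicative.toAdd a)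
    rw [ofAdd_toAdd] at h1
    rw [h1]
    apply hεδ'
    exact hh (Multiplicative.toAdd a) ha
  -- the compact set
  have hK' : IsCompact (Multiplicative.toAdd '' K) := hK.image continuous_toAdd
  obtain ⟨A, C, hA, hC, hAC⟩ := hCPT _ hK'
  obtain ⟨k, hk⟩ := hBID A hA χ (ε / (2 * C)) (by positivity) (by
    intro h hh
    apply hsmall
    intro g hg
    obtain ⟨k, hgk, hks, hkC⟩ := hAC g ⟨Multiplicative.ofAdd g, hg, rfl⟩
    rw [hgk]
    show ‖pr k (h : ℕ → TT)‖ < ε
    have h1 := hRED.2.2.2 k (h : ℕ → TT) (ε / (2 * C)) (fun t ht => (hh t (hks t ht)).le)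
    have h2 : (∑ t ∈ k.support, |(k t : ℝ)|) * (ε / (2 * C)) ≤ C * (ε / (2 * C)) :=
      mul_le_mul_of_nonneg_right hkC (by positivity)
    have h3 : C * (ε / (2 * C)) = ε / 2 := by field_simp
    linarith)
  refine ⟨Multiplicative.ofAdd ⟨phi k, hGS.2.1 k⟩, ?_⟩
  intro c
  obtain ⟨h, hh⟩ := hch1 c
  have hc : c = ev h := by
    apply hext
    intro g
    rw [hh, hev]
  rw [hc, ← hχ, hk, hev]
  rfl

end Pool.Agent.W551.RP
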